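import Pool.Agent.N356.SP.Defs

/-!
# Project LS (helper356), part LS1: the sum over the triples with an antipodal pair (helper402)
-/

set_option autoImplicit false

namespace Pool.Agent.N402.LS

open Finset Pool.Agent.N356.SP

theorem sw1 {Γ : Type*} (x y z : Γ) : ({x, y, z} : Multiset Γ) = {y, x, z} :=
  Multiset.cons_swap x y {z}

theorem sw2 {Γ : Type*} (x y z : Γ) : ({x, y, z} : Multiset Γ) = {x, z, y} := by
  change x ::ₘ {y, z} = x ::ₘ {z, y}
  rw [Multiset.pair_comm]

variable {Γ : Type*} [AddCommGroup Γ]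

open Classical in
/-- inclusion and exclusion for one triple -/
theorem pw {a b c : Γ} (hc : c ≠ -c) (F : Multiset Γ → ℝ) :
    (if ap (a, b, c) then F (ms (a, b, c)) else 0) =
      (if a = -b then F {c, b, -b} else 0) + (if c = -b then F {a, b, -b} else 0) +
      (if c = -a then F {b, a, -a} else 0) -
      (if b = -a then (if c = a then F {a, a, -a} else 0) else 0) -
      (if b = a then (if c = -a then F {a, a, -a} else 0) else 0) -
      (if a = -b then (if c = b then F {b, b, -b} else 0) else 0) := by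
  have hb : b = -c ↔ c = -b := by
    constructor <;> rintro rfl <;> rw [neg_neg]
  have ha : a = -c ↔ c = -a := by
    constructor <;> rintro rfl <;> rw [neg_neg]
  have hba : b = -a ↔ a = -b := by
    constructor <;> rintro rfl <;> rw [neg_neg]
  have hap : ap (a, b, c) ↔ a = -b ∨ c = -b ∨ c = -a := by
    unfold ap
    simp only
    rw [hb, ha]
  have hms : ms (a, b, c) = {a, b, c} := rfl
  have q4 : (b = -a ∧ c = a) ↔ (a = -b ∧ c = -b) := by
    rw [hba]
    constructor
    · rintro ⟨h1, h2⟩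
      exact ⟨h1, h2.trans h1⟩
    · rintro ⟨h1, h2⟩
      exact ⟨h1, h2.trans h1.symm⟩
  have q5 : (b = a ∧ c = -a) ↔ (c = -b ∧ c = -a) := by
    constructor
    · rintro ⟨h1, h2⟩
      exact ⟨by rw [h1]; exact h2, h2⟩
    · rintro ⟨h1, h2⟩
      exact ⟨neg_injective (h1.symm.trans h2), h2⟩
  have q6 : (a = -b ∧ c = b) ↔ (a = -b ∧ c = -a) := by
    constructor
    · rintro ⟨h1, h2⟩
      exact ⟨h1, by rw [h1, neg_neg]; exact h2⟩
    · rintro ⟨h1, h2⟩
      exact ⟨h1, by rw [h1, neg_neg] at h2; exact h2⟩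
  rw [hms, ← ite_and, ← ite_and, ← ite_and]
  simp only [hap, q4, q5, q6]
  by_cases h1 : a = -b <;> by_cases h2 : c = -b <;> by_cases h3 : c = -a
  · exfalso
    apply hc
    rw [h1, ← h2] at h3
    exact h3
  · rw [if_pos (Or.inl h1), if_pos h1, if_pos h2, if_neg h3, if_pos ⟨h1, h2⟩,
      if_neg (fun h => h3 h.2), if_neg (fun h => h3 h.2), h2, h1, neg_neg, sw2 (-b) (-b) b]
    ring
  · have hcb : c = b := by rw [h3, h1, neg_neg]
    rw [if_pos (Or.inl h1), if_pos h1, if_neg h2, if_pos h3, if_neg (fun h => h2 h.2),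
      if_neg (fun h => h2 h.1), if_pos ⟨h1, h3⟩, hcb, h1, neg_neg, sw1 (-b) b b]
    ring
  · rw [if_pos (Or.inl h1), if_pos h1, if_neg h2, if_neg h3, if_neg (fun h => h2 h.2),
      if_neg (fun h => h2 h.1), if_neg (fun h => h3 h.2), h1, sw1 (-b) b c, sw2 b (-b) c,
      sw1 b c (-b)]
    ring
  · have hab : a = b := neg_injective (h3.symm.trans h2)
    rw [if_pos (Or.inr (Or.inl h2)), if_neg h1, if_pos h2, if_pos h3, if_neg (fun h => h1 h.1),
      if_pos ⟨h2, h3⟩, if_neg (fun h => h1 h.1), h2, hab]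
    ring
  · rw [if_pos (Or.inr (Or.inl h2)), if_neg h1, if_pos h2, if_neg h3, if_neg (fun h => h1 h.1),
      if_neg (fun h => h3 h.2), if_neg (fun h => h1 h.1), h2]
    ring
  · rw [if_pos (Or.inr (Or.inr h3)), if_neg h1, if_neg h2, if_pos h3, if_neg (fun h => h1 h.1),
      if_neg (fun h => h2 h.1), if_neg (fun h => h1 h.1), h3, sw1 a b (-a)]
    ring
  · rw [if_neg (fun h => h.elim h1 fun h => h.elim h2 h3), if_neg h1, if_neg h2, if_neg h3, if_neg (fun h => h1 h.1),
      if_neg (fun h => h2 h.1), if_neg (fun h => h1 h.1)]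
    ring

/-- LS1 -/
theorem sumA {C : Finset Γ} (hneg : ∀ s ∈ C, -s ∈ C) (hne : ∀ s ∈ C, s ≠ -s)
    (F : Multiset Γ → ℝ) :
    ∑ T ∈ TA C, F (ms T) =
      3 * (∑ c ∈ C, ∑ x ∈ C, F {c, x, -x}) - 3 * ∑ c ∈ C, F {c, c, -c} := by
  classical
  have h0 : ∑ T ∈ TA C, F (ms T) = ∑ a ∈ C, ∑ b ∈ C, ∑ c ∈ C,
      (if ap (a, b, c) then F (ms (a, b, c)) else 0) := by
    unfold TA
    rw [Finset.sum_filter, Finset.sum_product]
    refine Finset.sum_congr rfl fun a _ => ?_
    rw [Finset.sum_product]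
  have h1 : ∑ a ∈ C, ∑ b ∈ C, ∑ c ∈ C, (if a = -b then F {c, b, -b} else 0) =
      ∑ c ∈ C, ∑ x ∈ C, F {c, x, -x} := by
    have e : ∀ a ∈ C, ∀ b ∈ C, ∑ c ∈ C, (if a = -b then F {c, b, -b} else 0) =
        if a = -b then ∑ c ∈ C, F {c, b, -b} else 0 := by
      intro a _ b _
      split_ifs
      · rfl
      · exact Finset.sum_const_zero
    rw [Finset.sum_congr rfl fun a ha => Finset.sum_congr rfl fun b hb => e a ha b hb,
      Finset.sum_comm]
    have e2 : ∀ b ∈ C, ∑ a ∈ C, (if a = -b then ∑ c ∈ C, F {c, b, -b} else 0) =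
        ∑ c ∈ C, F {c, b, -b} := by
      intro b hb
      rw [Finset.sum_ite_eq' C (-b), if_pos (hneg b hb)]
    rw [Finset.sum_congr rfl e2, Finset.sum_comm]
  have h2 : ∑ a ∈ C, ∑ b ∈ C, ∑ c ∈ C, (if c = -b then F {a, b, -b} else 0) =
      ∑ c ∈ C, ∑ x ∈ C, F {c, x, -x} := by
    refine Finset.sum_congr rfl fun a _ => Finset.sum_congr rfl fun b hb => ?_
    rw [Finset.sum_ite_eq' C (-b), if_pos (hneg b hb)]
  have h3 : ∑ a ∈ C, ∑ b ∈ C, ∑ c ∈ C, (if c = -a then F {b, a, -a} else 0) =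
      ∑ c ∈ C, ∑ x ∈ C, F {c, x, -x} := by
    rw [Finset.sum_comm]
    refine Finset.sum_congr rfl fun b _ => Finset.sum_congr rfl fun a ha => ?_
    rw [Finset.sum_ite_eq' C (-a), if_pos (hneg a ha)]
  have h4 : ∑ a ∈ C, ∑ b ∈ C, ∑ c ∈ C,
      (if b = -a then (if c = a then F {a, a, -a} else 0) else 0) = ∑ c ∈ C, F {c, c, -c} := by
    refine Finset.sum_congr rfl fun a ha => ?_
    have e : ∀ b ∈ C, ∑ c ∈ C, (if b = -a then (if c = a then F {a, a, -a} else 0) else 0) =
        if b = -a then F {a, a, -a} else 0 := by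
      intro b _
      split_ifs
      · rw [Finset.sum_ite_eq' C a, if_pos ha]
      · exact Finset.sum_const_zero
    rw [Finset.sum_congr rfl e, Finset.sum_ite_eq' C (-a), if_pos (hneg a ha)]
  have h5 : ∑ a ∈ C, ∑ b ∈ C, ∑ c ∈ C,
      (if b = a then (if c = -a then F {a, a, -a} else 0) else 0) = ∑ c ∈ C, F {c, c, -c} := by
    refine Finset.sum_congr rfl fun a ha => ?_
    have e : ∀ b ∈ C, ∑ c ∈ C, (if b = a then (if c = -a then F {a, a, -a} else 0) else 0) =
        if b = a then F {a, a, -a} else 0 := by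
      intro b _
      split_ifs
      · rw [Finset.sum_ite_eq' C (-a), if_pos (hneg a ha)]
      · exact Finset.sum_const_zero
    rw [Finset.sum_congr rfl e, Finset.sum_ite_eq' C a, if_pos ha]
  have h6 : ∑ a ∈ C, ∑ b ∈ C, ∑ c ∈ C,
      (if a = -b then (if c = b then F {b, b, -b} else 0) else 0) = ∑ c ∈ C, F {c, c, -c} := by
    rw [Finset.sum_comm]
    refine Finset.sum_congr rfl fun b hb => ?_
    have e : ∀ a ∈ C, ∑ c ∈ C, (if a = -b then (if c = b then F {b, b, -b} else 0) else 0) =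
        if a = -b then F {b, b, -b} else 0 := by
      intro a _
      split_ifs
      · rw [Finset.sum_ite_eq' C b, if_pos hb]
      · exact Finset.sum_const_zero
    rw [Finset.sum_congr rfl e, Finset.sum_ite_eq' C (-b), if_pos (hneg b hb)]
  rw [h0, Finset.sum_congr rfl fun a _ => Finset.sum_congr rfl fun b _ =>
    Finset.sum_congr rfl fun c hc => pw (a := a) (b := b) (hne c hc) F]
  simp only [Finset.sum_add_distrib, Finset.sum_sub_distrib]
  rw [h1, h2, h3, h4, h5, h6]
  ring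

end Pool.Agent.N402.LS
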